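import Mathlib
import Pool.Agent.W761.CP.Defs

/-!
# Localisation of the Schroedinger equation by a multiplier
-/

set_option autoImplicit false

open MeasureTheory
open scoped ENNReal FourierTransform SchwartzMap InnerProductSpace

namespace Pool.Agent.W376.CP
open Pool.Agent.W761.CP
open Pool.Agent.Helper209.CX (Ed L2d InH1 dirichlet IsHu)

theorem mul_bdd {d : ℕ} {χ : Ed d → ℝ} (h : Mul χ) : ∃ C : ℝ, ∀ x, ‖χ x‖ ≤ C := by
  obtain ⟨c, hc⟩ := h.supp
  have hcont : Continuous fun x => χ x - c := h.smooth.continuous.sub continuous_const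
  obtain ⟨C, hC⟩ := hcont.bounded_above_of_compact_support hc
  refine ⟨C + ‖c‖, fun x => ?_⟩
  have h1 := hC x
  calc ‖χ x‖ = ‖(χ x - c) + c‖ := by rw [sub_add_cancel]
    _ ≤ ‖χ x - c‖ + ‖c‖ := norm_add_le _ _
    _ ≤ C + ‖c‖ := by linarith

theorem mulR_ae {d : ℕ} {χ : Ed d → ℝ} (h : Mul χ) (u : L2d d) :
    ⇑(mulR χ u) =ᵐ[volume] fun x => (χ x : ℂ) * u x := by
  obtain ⟨C, hC⟩ := mul_bdd h
  have hm : MemLp (fun x => (χ x : ℂ) * u x) 2 volume := by
    refine MemLp.of_le_mul (g := fun x => u x) (c := C) (Lp.memLp u) ?_ ?_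
    · exact (Complex.continuous_ofReal.comp h.smooth.continuous).aestronglyMeasurable.mul
        (Lp.aestronglyMeasurable u)
    · refine Filter.Eventually.of_forall fun x => ?_
      rw [norm_mul]
      have h1 := hC x
      rw [Complex.norm_real]
      exact mul_le_mul_of_nonneg_right h1 (norm_nonneg _)
  unfold mulR
  rw [dif_pos hm]
  exact hm.coeFn_toLp

theorem mulR_symm {d : ℕ} {χ : Ed d → ℝ} (h : Mul χ) (a b : L2d d) :
    ⟪mulR χ a, b⟫_ℂ = ⟪a, mulR χ b⟫_ℂ := by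
  rw [L2.inner_def, L2.inner_def]
  refine integral_congr_ae ?_
  filter_upwards [mulR_ae h a, mulR_ae h b] with x hx hy
  rw [hx, hy]
  simp only [RCLike.inner_apply, map_mul, Complex.conj_ofReal]
  ring

theorem mul_pd {d : ℕ} {χ : Ed d → ℝ} (h : Mul χ) (k : Fin d) : Mul (pd k χ) := by
  obtain ⟨c, hc⟩ := h.supp
  refine ⟨?_, 0, ?_⟩
  · exact (contDiff_infty_iff_fderiv.mp h.smooth).2.clm_apply contDiff_const
  · have h1 : HasCompactSupport fun x => fderiv ℝ (fun y => χ y - c) x (ev k) :=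
      hc.fderiv_apply (𝕜 := ℝ) (ev k)
    have h2 : (fun x => pd k χ x - 0) = fun x => fderiv ℝ (fun y => χ y - c) x (ev k) := by
      funext x
      rw [sub_zero, fderiv_sub_const]
      rfl
    rw [h2]
    exact h1

theorem mul_add {d : ℕ} {χ ψ : Ed d → ℝ} (h : Mul χ) (h' : Mul ψ) : Mul (fun x => χ x + ψ x) := by
  obtain ⟨c, hc⟩ := h.supp
  obtain ⟨c', hc'⟩ := h'.supp
  refine ⟨h.smooth.add h'.smooth, c + c', ?_⟩
  have h1 := hc.add hc'
  have h2 : (fun x => χ x + ψ x - (c + c')) = (fun x => χ x - c) + fun x => ψ x - c' := by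
    funext x
    simp only [Pi.add_apply]
    ring
  rw [h2]
  exact h1

theorem mul_sum {d : ℕ} {ι : Type} (s : Finset ι) (χ : ι → Ed d → ℝ) (h : ∀ i, Mul (χ i)) :
    Mul (fun x => ∑ i ∈ s, χ i x) := by
  classical
  induction s using Finset.induction_on with
  | empty =>
    refine ⟨?_, 0, ?_⟩
    · simp only [Finset.sum_empty]
      exact contDiff_const
    · simp only [Finset.sum_empty, sub_zero]
      exact HasCompactSupport.zero
  | insert i s hi ih =>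
    have h1 : (fun x => ∑ j ∈ insert i s, χ j x) = fun x => χ i x + ∑ j ∈ s, χ j x := by
      funext x
      rw [Finset.sum_insert hi]
    rw [h1]
    exact mul_add (h i) ih

theorem mul_lap {d : ℕ} {χ : Ed d → ℝ} (h : Mul χ) : Mul (lap χ) :=
  mul_sum Finset.univ (fun k => pd k (pd k χ)) fun k => mul_pd (mul_pd h k) k

theorem mulR_lap {d : ℕ} {χ : Ed d → ℝ} (h : Mul χ) (u : L2d d) :
    mulR (lap χ) u = ∑ k, mulR (pd k (pd k χ)) u := by
  refine Lp.ext ?_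
  have h1 : ∀ᵐ x ∂(volume : Measure (Ed d)), ∀ k : Fin d,
      (mulR (pd k (pd k χ)) u) x = (pd k (pd k χ) x : ℂ) * u x :=
    ae_all_iff.mpr fun k => mulR_ae (mul_pd (mul_pd h k) k) u
  filter_upwards [mulR_ae (mul_lap h) u, h1,
    Lp.coeFn_finsetSum Finset.univ fun k => mulR (pd k (pd k χ)) u] with x hx hy hz
  rw [hx, hz, Finset.sum_apply]
  simp only [hy]
  unfold lap
  rw [Complex.ofReal_sum, Finset.sum_mul]

/-- uniqueness of the weak gradient -/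
theorem grad_unique {d : ℕ} {u : L2d d} {g g₀ : Fin d → L2d d} (hg : IsGrad u g)
    (hg₀ : IsGrad u g₀) : g = g₀ := by
  funext k
  rw [← sub_eq_zero]
  rw [Lp.eq_zero_iff_ae_eq_zero]
  have hloc : LocallyIntegrable (fun x => (g k - g₀ k) x) (volume : Measure (Ed d)) :=
    (Lp.memLp (g k - g₀ k)).locallyIntegrable (by norm_num)
  refine ae_eq_zero_of_integral_contDiff_smul_eq_zero hloc fun f hf hfc => ?_
  have hF : HasCompactSupport (fun x => (f x : ℂ)) := by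
    exact hfc.comp_left (g := fun r : ℝ => (r : ℂ)) Complex.ofReal_zero
  have hF2 : ContDiff ℝ ((⊤ : ℕ∞) : WithTop ℕ∞) (fun x => (f x : ℂ)) :=
    Complex.ofRealCLM.contDiff.comp hf
  have e1 := hg (hF.toSchwartzMap hF2) k
  have e2 := hg₀ (hF.toSchwartzMap hF2) k
  have e3 : ∫ x, g k x * (hF.toSchwartzMap hF2) x = ∫ x, g₀ k x * (hF.toSchwartzMap hF2) x := by
    have h1 := e1.symm.trans e2
    exact neg_injective h1
  have hi : ∀ w : L2d d, Integrable (fun x => w x * (hF.toSchwartzMap hF2) x)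
      (volume : Measure (Ed d)) := fun w =>
    (Lp.memLp w).integrable_mul ((hF.toSchwartzMap hF2).memLp 2 volume)
  have e4 : ∫ x, (g k x * (hF.toSchwartzMap hF2) x - g₀ k x * (hF.toSchwartzMap hF2) x) = 0 := by
    rw [integral_sub (hi _) (hi _), e3, sub_self]
  rw [← e4]
  refine integral_congr_ae ?_
  filter_upwards [Lp.coeFn_sub (g k) (g₀ k)] with x hx
  rw [hx]
  have h5 : (hF.toSchwartzMap hF2) x = (f x : ℂ) := rfl
  rw [h5, Pi.sub_apply, Complex.real_smul]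
  ring

theorem e2 : S_LEI → S_IBP → S_E2 := by
  intro hL hI d h V u f g χ hV hu hg hχ
  obtain ⟨g₀, hg₀, heq⟩ := hu
  have hgg : g₀ = g := grad_unique hg₀ hg
  subst hgg
  refine ⟨fun k => mulR χ (g₀ k) + mulR (pd k χ) u, hL d χ u g₀ hχ hg, ?_⟩
  intro φ g' hφ
  have hφ' := hL d χ φ g' hχ hφ
  have key := heq (mulR χ φ) _ hφ'
  have pot : ∫ x, V x * (mulR χ u) x * (starRingEnd ℂ) (φ x) =
      ∫ x, V x * u x * (starRingEnd ℂ) ((mulR χ φ) x) := by
    refine integral_congr_ae ?_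
    filter_upwards [mulR_ae hχ u, mulR_ae hχ φ] with x hx hy
    rw [hx, hy]
    simp only [map_mul, Complex.conj_ofReal]
    ring
  have hk : ∀ k, ⟪g' k, mulR (pd k χ) u⟫_ℂ =
      -(⟪φ, mulR (pd k χ) (g₀ k)⟫_ℂ + ⟪φ, mulR (pd k (pd k χ)) u⟫_ℂ) := by
    intro k
    have h1 := hI d φ (mulR (pd k χ) u) g' _ hφ (hL d (pd k χ) u g₀ (mul_pd hχ k) hg) k
    rw [h1, inner_add_right]
  have s1 : ∀ k, ⟪g' k, mulR χ (g₀ k) + mulR (pd k χ) u⟫_ℂ =
      ⟪mulR χ (g' k) + mulR (pd k χ) φ, g₀ k⟫_ℂ - 2 * ⟪φ, mulR (pd k χ) (g₀ k)⟫_ℂ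
        - ⟪φ, mulR (pd k (pd k χ)) u⟫_ℂ := by
    intro k
    rw [inner_add_right, inner_add_left, hk k, mulR_symm hχ, mulR_symm (mul_pd hχ k) φ]
    ring
  have s2 : ∑ k, ⟪g' k, mulR χ (g₀ k) + mulR (pd k χ) u⟫_ℂ =
      (∑ k, ⟪mulR χ (g' k) + mulR (pd k χ) φ, g₀ k⟫_ℂ) -
        2 * (∑ k, ⟪φ, mulR (pd k χ) (g₀ k)⟫_ℂ) - ∑ k, ⟪φ, mulR (pd k (pd k χ)) u⟫_ℂ := by
    rw [Finset.sum_congr rfl fun k _ => s1 k, Finset.sum_sub_distrib, Finset.sum_sub_distrib,
      Finset.mul_sum]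
  have s3 : ⟪φ, mulR χ f - Pool.Agent.W761.CP.comm h χ u g₀⟫_ℂ = ⟪mulR χ φ, f⟫_ℂ -
      ((h ^ 2 : ℝ) : ℂ) * (2 * (∑ k, ⟪φ, mulR (pd k χ) (g₀ k)⟫_ℂ) +
        ∑ k, ⟪φ, mulR (pd k (pd k χ)) u⟫_ℂ) := by
    rw [inner_sub_right, mulR_symm hχ]
    unfold Pool.Agent.W761.CP.comm
    rw [inner_smul_right, inner_add_right, inner_smul_right, inner_sum, mulR_lap hχ, inner_sum]
  rw [s2, s3, pot, ← key]
  ring

end Pool.Agent.W376.CP
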